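import Mathlib

/-!
# Ideal Chomp
-/

set_option autoImplicit false

namespace Pool.Agent.TH502.IC

open Ideal

/-- Outcome of Ideal Chomp from the position `I` (a proper ideal): `Outcome true I` says that the
player to move can force a win, `Outcome false I` that the other player can. A move chooses `a`
outside of `I` and leads to `I + (a)`; a player whose move produces the whole ring loses, so only
moves with `I + (a) ≠ R` need to be considered. -/
inductive Outcome {R : Type} [CommRing R] : Bool → Ideal R → Prop
  | win (I : Ideal R) (a : R) : a ∉ I → I ⊔ span {a} ≠ ⊤ → Outcome false (I ⊔ span {a}) →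
      Outcome true I
  | lose (I : Ideal R) : (∀ a, a ∉ I → I ⊔ span {a} ≠ ⊤ → Outcome true (I ⊔ span {a})) →
      Outcome false I

/-- The first player can force a win in Ideal Chomp on `R`. -/
def FirstWins (R : Type) [CommRing R] : Prop := Outcome true (⊥ : Ideal R)

/-- The second player can force a win in Ideal Chomp on `R`. -/
def SecondWins (R : Type) [CommRing R] : Prop := Outcome false (⊥ : Ideal R)

/-- The ring `R / I` has an idempotent other than `0` and `1`. -/
def SplitMod {R : Type} [CommRing R] (I : Ideal R) : Prop :=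
  ∃ e : R, e * e - e ∈ I ∧ e ∉ I ∧ 1 - e ∉ I

/-- The ring `R / I` has an element, neither zero nor a unit, which lies in every nonzero ideal. -/
def SocleMod {R : Type} [CommRing R] (I : Ideal R) : Prop :=
  ∃ s : R, s ∉ I ∧ I ⊔ span {s} ≠ ⊤ ∧ ∀ b, b ∉ I → s ∈ I ⊔ span {b}

variable {R : Type} [CommRing R]

lemma excl {t : Bool} {I : Ideal R} (h : Outcome t I) : ¬ Outcome (!t) I := by
  induction h with
  | win I a ha hne _ ih =>
    intro h
    cases h with
    | lose _ h => exact ih (h a ha hne)
  | lose I _ ih =>
    intro h
    cases h with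
    | win _ a ha hne h => exact ih a ha hne h

lemma lt_sup {I : Ideal R} {a : R} (ha : a ∉ I) : I < I ⊔ span {a} := by
  refine lt_of_le_of_ne le_sup_left fun h => ha ?_
  rw [h]
  exact Ideal.mem_sup_right (mem_span_singleton_self a)

lemma determined [IsNoetherianRing R] (I : Ideal R) : Outcome true I ∨ Outcome false I := by
  induction I using WellFoundedGT.induction with
  | _ I ih =>
    by_cases h : ∃ a, a ∉ I ∧ I ⊔ span {a} ≠ ⊤ ∧ Outcome false (I ⊔ span {a})
    · obtain ⟨a, h1, h2, h3⟩ := h
      exact Or.inl (Outcome.win I a h1 h2 h3)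
    · push Not at h
      refine Or.inr (Outcome.lose I fun a h1 h2 => ?_)
      rcases ih _ (lt_sup h1) with h3 | h3
      · exact h3
      · exact absurd h3 (h a h1 h2)

lemma maximal_loses {I : Ideal R} (hI : I.IsMaximal) : Outcome false I :=
  Outcome.lose I fun _ ha hne => absurd (hI.1.2 _ (lt_sup ha)) hne

lemma split_wins [IsNoetherianRing R] {I : Ideal R} (h : SplitMod I) : Outcome true I := by
  obtain ⟨e, he, he0, he1⟩ := h
  have hJ : I ⊔ span {e} ≠ ⊤ := by
    intro ht
    have h1 : (1 : R) ∈ I ⊔ span {e} := by
      rw [ht]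
      exact Submodule.mem_top
    obtain ⟨i, hi, y, hy, hiy⟩ := Submodule.mem_sup.1 h1
    obtain ⟨r, rfl⟩ := mem_span_singleton'.1 hy
    apply he1
    have h2 : 1 - e = (1 - e) * i - r * (e * e - e) := by
      linear_combination (e - 1) * hiy
    rw [h2]
    exact I.sub_mem (I.mul_mem_left _ hi) (I.mul_mem_left _ he)
  rcases determined (I ⊔ span {e}) with h | h
  · cases h with
    | win _ a ha hne h =>
      have hb : I ⊔ span {e + (1 - e) * a} = I ⊔ span {e} ⊔ span {a} := by
        apply le_antisymm
        · refine sup_le (le_sup_left.trans le_sup_left) ?_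
          rw [span_singleton_le_iff_mem]
          exact Ideal.add_mem _ (Ideal.mem_sup_left (Ideal.mem_sup_right
            (mem_span_singleton_self e))) (Ideal.mul_mem_left _ _ (Ideal.mem_sup_right
              (mem_span_singleton_self a)))
        · have h1 : e ∈ I ⊔ span {e + (1 - e) * a} := by
            have h5 : (a - 1) * (e * e - e) + e * (e + (1 - e) * a) ∈
                I ⊔ span {e + (1 - e) * a} :=
              Ideal.add_mem _ (Ideal.mem_sup_left (I.mul_mem_left _ he))
                (Ideal.mul_mem_left _ _ (Ideal.mem_sup_right (mem_span_singleton_self _)))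
            have h2 : (a - 1) * (e * e - e) + e * (e + (1 - e) * a) = e := by ring
            rwa [h2] at h5
          have h3 : a ∈ I ⊔ span {e + (1 - e) * a} := by
            have h6 : (e + (1 - e) * a) + (a - 1) * e ∈ I ⊔ span {e + (1 - e) * a} :=
              Ideal.add_mem _ (Ideal.mem_sup_right (mem_span_singleton_self _))
                (Ideal.mul_mem_left _ _ h1)
            have h4 : (e + (1 - e) * a) + (a - 1) * e = a := by ring
            rwa [h4] at h6
          refine sup_le (sup_le le_sup_left ?_) ?_
          · rwa [span_singleton_le_iff_mem]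
          · rwa [span_singleton_le_iff_mem]
      refine Outcome.win I (e + (1 - e) * a) ?_ (by rwa [hb]) (by rwa [hb])
      intro hbI
      apply he0
      have h2 : e = (a - 1) * (e * e - e) + e * (e + (1 - e) * a) := by ring
      rw [h2]
      exact I.add_mem (I.mul_mem_left _ he) (I.mul_mem_left _ hbI)
  · exact Outcome.win I e he0 hJ h

lemma split_of_coprime {f g : R} (hf : ¬ IsUnit f) (hg : ¬ IsUnit g) (h : IsCoprime f g) :
    SplitMod (span {f * g}) := by
  obtain ⟨u, v, huv⟩ := h
  refine ⟨u * f, ?_, ?_, ?_⟩
  · rw [mem_span_singleton]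
    refine ⟨-(u * v), ?_⟩
    linear_combination (u * f) * huv
  · rw [mem_span_singleton]
    rintro ⟨c, hc⟩
    apply hg
    refine isUnit_of_dvd_one ⟨v + f * c, ?_⟩
    linear_combination hc - huv
  · rw [mem_span_singleton]
    rintro ⟨c, hc⟩
    apply hf
    refine isUnit_of_dvd_one ⟨u + g * c, ?_⟩
    linear_combination hc

lemma socle_wins [IsNoetherianRing R] {I : Ideal R} (h : SocleMod I) : Outcome true I := by
  obtain ⟨s, hs, hne, hall⟩ := h
  rcases determined (I ⊔ span {s}) with h | h
  · cases h with
    | win _ a ha hne' h =>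
      have haI : a ∉ I := fun h1 => ha (Ideal.mem_sup_left h1)
      have he : I ⊔ span {s} ⊔ span {a} = I ⊔ span {a} := by
        apply le_antisymm
        · refine sup_le (sup_le le_sup_left ?_) le_sup_right
          rw [span_singleton_le_iff_mem]
          exact hall a haI
        · exact sup_le (le_sup_left.trans le_sup_left) le_sup_right
      rw [he] at hne' h
      exact Outcome.win I a haI hne' h
  · exact Outcome.win I s hs hne h

/-- If every proper nonzero principal ideal which is not maximal is a win for the player to move,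
the first player wins if and only if some nonzero element generates a maximal ideal. -/
lemma first_iff [IsNoetherianRing R]
    (H : ∀ a : R, a ≠ 0 → span {a} ≠ ⊤ → ¬ (span {a}).IsMaximal → Outcome true (span {a})) :
    (FirstWins R ↔ ∃ a : R, a ≠ 0 ∧ (span {a}).IsMaximal) ∧
      (SecondWins R ↔ ¬ ∃ a : R, a ≠ 0 ∧ (span {a}).IsMaximal) := by
  have h1 : FirstWins R ↔ ∃ a : R, a ≠ 0 ∧ (span {a}).IsMaximal := by
    constructor
    · intro h
      cases h with
      | win _ a ha hne h =>
        rw [bot_sup_eq] at hne h
        have ha0 : a ≠ 0 := fun h0 => ha (by rw [h0]; exact Ideal.zero_mem _)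
        refine ⟨a, ha0, ?_⟩
        by_contra hm
        exact excl h (H a ha0 hne hm)
    · rintro ⟨a, ha0, hm⟩
      refine Outcome.win ⊥ a (fun h => ha0 (Ideal.mem_bot.1 h)) ?_ ?_
      · rw [bot_sup_eq]
        exact hm.ne_top
      · rw [bot_sup_eq]
        exact maximal_loses hm
  refine ⟨h1, ?_⟩
  rw [← h1]
  constructor
  · intro h h'
    exact excl h h'
  · intro h
    exact (determined (⊥ : Ideal R)).resolve_left h

lemma dedekind [IsDedekindDomain R] (a : R) (ha : a ≠ 0) (hne : span {a} ≠ ⊤)
    (hm : ¬ (span {a}).IsMaximal) : Outcome true (span {a}) := by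
  obtain ⟨m, hmax, hle⟩ := Ideal.exists_le_maximal _ hne
  obtain ⟨b, hb⟩ := IsDedekindDomain.exists_sup_span_eq hle (by
    intro h
    rw [Ideal.zero_eq_bot, span_singleton_eq_bot] at h
    exact ha h)
  refine Outcome.win _ b ?_ ?_ ?_
  · intro h
    rw [sup_eq_left.2 ((span_singleton_le_iff_mem _).2 h)] at hb
    exact hm (hb ▸ hmax)
  · rw [hb]
    exact hmax.ne_top
  · rw [hb]
    exact maximal_loses hmax

end Pool.Agent.TH502.IC
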